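import Pool.Agent.Helper20.QP.Defs2

/-!
# Project QD (MP_d112a4_gt), part P: the logarithm lemma of module CRD (for helper18)
-/

set_option autoImplicit false

open Filter Topology Matrix Set Metric MeasureTheory
open scoped ComplexConjugate ENNReal

namespace Pool.Agent.Helper63.QP

open Pool.Agent.Helper35.PM (hs Mat SL IsDiscrete SurfaceGroup Adapted IsQF HolDisc pressureDist)
open Pool.Agent.Helper20.QD
open Pool.Agent.Helper20.QP

theorem isOpen_Sm (M : ℝ) : IsOpen (Sm M) :=
  (isOpen_lt continuous_const Complex.continuous_im).inter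
    (isOpen_lt Complex.continuous_im continuous_const)

theorem convex_Sm (M : ℝ) : Convex ℝ (Sm M) :=
  (convex_halfSpace_im_gt 0).inter (convex_halfSpace_im_lt M)

theorem Sm_add_one {M : ℝ} {w : ℂ} (hw : w ∈ Sm M) : w + 1 ∈ Sm M := by
  obtain ⟨h1, h2⟩ := hw
  exact ⟨by simpa using h1, by simpa using h2⟩

theorem log_part {M : ℝ} (hM : 0 < M) {q h : ℂ → ℂ} {κ : ℂ} (hq : DifferentiableOn ℂ q (Sm M))
    (hqD : MapsTo q (Sm M) D)
    (hlog : ∃ g : ℂ → ℂ, DifferentiableOn ℂ g D ∧ ∀ z ∈ D, Complex.exp (g z) = h z)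
    (hper : ∀ w ∈ Sm M, h (q (w + 1)) = κ * h (q w))
    (hinf : ∃ w ∈ Sm M, Tendsto (fun n : ℕ => ‖h (q (w + n))‖) atTop atTop) :
    ∃ (lam : ℂ) (G : ℂ → ℂ), 0 < lam.re ∧ Complex.exp lam = κ ∧ DifferentiableOn ℂ G (Sm M) ∧
      (∀ w ∈ Sm M, G (w + 1) = G w + 1) ∧ ∀ w ∈ Sm M, Complex.exp (lam * G w) = h (q w) := by
  obtain ⟨g, hg, hge⟩ := hlog
  obtain ⟨w0, hw0, hlim⟩ := hinf
  set L : ℂ → ℂ := fun w => g (q w) with hL
  have hLd : DifferentiableOn ℂ L (Sm M) := hg.comp hq hqD
  have hLe : ∀ w ∈ Sm M, Complex.exp (L w) = h (q w) := fun w hw => hge _ (hqD hw)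
  have hd1 : DifferentiableOn ℂ (fun w => L (w + 1)) (Sm M) :=
    hLd.comp (differentiableOn_id.add_const 1) (fun w hw => Sm_add_one hw)
  have hdd : DifferentiableOn ℂ (fun w => L (w + 1) - L w) (Sm M) := hd1.sub hLd
  have hh0 : ∀ w ∈ Sm M, h (q w) ≠ 0 := fun w hw => by
    rw [← hLe w hw]; exact Complex.exp_ne_zero _
  have hk : ∀ w ∈ Sm M, Complex.exp (L (w + 1) - L w) = κ := by
    intro w hw
    rw [Complex.exp_sub, hLe w hw, hLe _ (Sm_add_one hw), hper w hw]
    exact mul_div_cancel_right₀ _ (hh0 w hw)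
  -- the derivative of the difference vanishes
  have hopen := isOpen_Sm M
  have hder : ∀ w ∈ Sm M, deriv (fun w => L (w + 1) - L w) w = 0 := by
    intro w hw
    have hD : DifferentiableAt ℂ (fun w => L (w + 1) - L w) w :=
      hdd.differentiableAt (hopen.mem_nhds hw)
    have h1 : HasDerivAt (fun w => Complex.exp (L (w + 1) - L w))
        (Complex.exp (L (w + 1) - L w) * deriv (fun w => L (w + 1) - L w) w) w :=
      hD.hasDerivAt.cexp
    have h2 : HasDerivAt (fun w => Complex.exp (L (w + 1) - L w)) 0 w := by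
      have : (fun w => Complex.exp (L (w + 1) - L w)) =ᶠ[𝓝 w] fun _ => κ := by
        filter_upwards [hopen.mem_nhds hw] with v hv using hk v hv
      exact (hasDerivAt_const w κ).congr_of_eventuallyEq this
    have h3 := h1.unique h2
    rcases mul_eq_zero.1 h3 with h | h
    · exact absurd h (Complex.exp_ne_zero _)
    · exact h
  obtain ⟨lam, hlam⟩ : ∃ lam, lam = L (w0 + 1) - L w0 := ⟨_, rfl⟩
  have hconst : ∀ w ∈ Sm M, L (w + 1) - L w = lam := by
    intro w hw
    rw [hlam]
    have := (convex_Sm M).is_const_of_fderivWithin_eq_zero (𝕜 := ℂ)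
      (f := fun w => L (w + 1) - L w) hdd (fun v hv => by
        rw [fderivWithin_of_isOpen hopen hv]
        have := hder v hv
        ext
        simp [this]) hw hw0
    exact this
  have hlamk : Complex.exp lam = κ := by
    rw [hlam]; exact hk w0 hw0
  -- iterate
  have hiter : ∀ n : ℕ, w0 + n ∈ Sm M ∧ h (q (w0 + n)) = κ ^ n * h (q w0) := by
    intro n
    induction n with
    | zero => simp [hw0]
    | succ n ih =>
      obtain ⟨i1, i2⟩ := ih
      have e : w0 + ((n + 1 : ℕ) : ℂ) = w0 + n + 1 := by push_cast; ring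
      rw [e]
      refine ⟨Sm_add_one i1, ?_⟩
      rw [hper _ i1, i2, pow_succ]
      ring
  have hκ : 1 < ‖κ‖ := by
    by_contra hcon
    push Not at hcon
    have hb : ∀ n : ℕ, ‖h (q (w0 + n))‖ ≤ ‖h (q w0)‖ := by
      intro n
      rw [(hiter n).2, norm_mul, norm_pow]
      calc ‖κ‖ ^ n * ‖h (q w0)‖ ≤ 1 * ‖h (q w0)‖ := by
            apply mul_le_mul_of_nonneg_right _ (norm_nonneg _)
            exact pow_le_one₀ (norm_nonneg _) hcon
        _ = _ := one_mul _
    obtain ⟨n, hn⟩ := (hlim.eventually (eventually_gt_atTop ‖h (q w0)‖)).exists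
    exact absurd (hb n) (not_le.2 hn)
  have hre : 0 < lam.re := by
    rw [← hlamk, Complex.norm_exp] at hκ
    exact (Real.one_lt_exp_iff).1 hκ
  have hne : lam ≠ 0 := by
    intro h0
    rw [h0] at hre
    simp at hre
  refine ⟨lam, fun w => L w / lam, hre, hlamk, hLd.div_const lam, ?_, ?_⟩
  · intro w hw
    have := hconst w hw
    change L (w + 1) / lam = L w / lam + 1
    rw [← this] at hne ⊢
    field_simp
    ring
  · intro w hw
    change Complex.exp (lam * (L w / lam)) = h (q w)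
    rw [mul_div_cancel₀ _ hne]
    exact hLe w hw

end Pool.Agent.Helper63.QP
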